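import Pool.Agent.Run7.h948.QF.StrE

/-! # MP_d26ff6_al: thirty-two quaternions and value groups of index two

Let `S = (G, -1, q)` be a finite quaternionic structure whose quaternions lie in a group `B` of
exponent two in which `q` is additive (for instance the structure of any field), and let
`V(a) = {b : q(a,b) = 0}`, whose index is the order of the group `Q_a` of all `q(a,b)`.  If `B` has
at most 32 elements and for each `a` with `V(a)` of index two there is a `b ∉ V(a)` with `V(b)` of
index at most eight, then `S` is of elementary type.  In particular this holds if no `V(a)` has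
index two.  There is also a local form: it is enough that, for all independent `x, y, z`, the group
`Q_x + Q_y + Q_z` has at most 32 elements and the number of `p ∈ ⟨x,y,z⟩` with `V(p)` of index two
is not one, or that at most 27 quaternions have a slot in `⟨x,y,z⟩`.

Outline.  A structure which is not of elementary type has a factor structure with elements
`x, y, z` and a character `f` of `G` such that `(p,b) ↦ ε(p) f(b)` (`ε(x) = ε(y) = ε(z) = 1`) is a
symbol on `P = ⟨x,y,z⟩` which is not a function of the quaternions.  If `Q_x + Q_y + Q_z` has at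
most 32 elements, then the symbols on `P` and this one form a linked system of at most 64 linear
maps with a map of rank one for each line of `P`, and the classification of these systems gives two
forms, with exactly one `p ∈ P` such that `|Q_p| = 2`.  In a proper factor structure either the
restrictions to `P` are the same, or there are at most 16 of them.  If `B` has 32 elements, the
family `A` of the forms `χ ∘ q` (`χ` a character of `B`) is given by its restrictions to `P`.  For
`b ∉ V(p)` the products `q(p',b)`, `p' ∈ P`, form a subgroup of order eight of `Q_b`.  If this is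
`Q_b`, then the members of `A` vanishing at `b` are known, and linkage at pairs of the elements
`bp'`, `p''` with `p', p'' ∈ P` leads to a contradiction. -/

set_option autoImplicit false

namespace Pool.Agent.Results.MP_d26ff6_al.NoIndexTwo

open Pool.Agent.H315R3.ETC

universe v

/-- the quaternions with a slot in the subset `W` of `G` -/
def quats (S : QData) (W : Set S.G) : Set S.Q := {t | ∃ g ∈ W, ∃ b : S.G, S.q g b = t}

/-- `Q_a`: the subgroup of `B` generated by all `β(a,b)`, `b ∈ G` (it is the set of these values,
if `β` is additive in the second variable and `B` has exponent two) -/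
def QGroup {G : Type} {B : Type v} [AddCommGroup B] (β : G → G → B) (a : G) : AddSubgroup B :=
  AddSubgroup.closure (Set.range (β a))

/-- `x, y, z` are independent elements of the group `G` of exponent two -/
def Independent {G : Type} [CommGroup G] (x y z : G) : Prop :=
  x ≠ 1 ∧ y ≠ 1 ∧ z ≠ 1 ∧ x * y ≠ 1 ∧ x * z ≠ 1 ∧ y * z ≠ 1 ∧ x * y * z ≠ 1

/-- the elements `p` of `⟨x,y,z⟩` such that `Q_p` has two elements -/
def IndexTwo {G : Type} [CommGroup G] {B : Type v} [AddCommGroup B] (β : G → G → B)
    (x y z : G) : Set G :=
  {p | p ∈ Subgroup.closure {x, y, z} ∧ Nat.card (QGroup β p) = 2}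

theorem result (S : QData) (hS : IsQuat S) (hfin : Finite S.G)
    -- the quaternions lie in a group `B` of exponent two in which `q` is additive
    {B : Type v} [AddCommGroup B] (hB : ∀ b : B, b + b = 0) (β : S.G → S.G → B)
    (hmul : ∀ a b c, β a (b * c) = β a b + β a c)
    (hq : ∀ a b c d, β a b = β c d ↔ S.q a b = S.q c d) :
    -- `B` has at most 32 elements, and for each `a` such that `Q_a` has exactly two elements there
    -- is a `b` with `q(a,b) ≠ 0` such that `Q_b` has at most eight elements
    (Finite B → Nat.card B ≤ 32 →
      (∀ a : S.G, Nat.card (QGroup β a) = 2 →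
        ∃ b : S.G, S.q a b ≠ S.zero ∧ Nat.card (QGroup β b) ≤ 8) → Elem S) ∧
    -- for all independent `x, y, z`: `Q_x + Q_y + Q_z` has at most 32 elements, and the number of
    -- `p ∈ ⟨x,y,z⟩` such that `Q_p` has two elements is not one,
    ((∀ x y z : S.G, Independent x y z →
      (Nat.card (QGroup β x ⊔ QGroup β y ⊔ QGroup β z : AddSubgroup B) ≤ 32 ∧
        (IndexTwo β x y z).ncard ≠ 1) ∨
      -- or at most 27 quaternions have a slot in `⟨x,y,z⟩`
      (quats S (Subgroup.closure {x, y, z} : Subgroup S.G)).ncard ≤ 27) → Elem S) := by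
  have hsq : ∀ a : S.G, a * a = 1 := hS.exp2
  have hind : ∀ x y z : S.G, Pool.Agent.Run7.h948.QF.Indep x y z → Independent x y z := by
    have hne : ∀ a b : S.G, b ≠ a → a * b ≠ 1 := by
      intro a b hab h
      apply hab
      have h1 : a * (a * b) = b := by rw [← mul_assoc, hsq, one_mul]
      rw [h, mul_one] at h1
      exact h1.symm
    rintro x y z ⟨h1, h2, h3, h4, h5, h6, h7⟩
    exact ⟨h1, h2, h4, hne _ _ h3, hne _ _ h5, hne _ _ h6, hne _ _ h7⟩
  -- `Q_1 = 0`
  have h10 : Nat.card (QGroup β 1) = 1 := by
    have hz : ∀ b, β 1 b = 0 := by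
      intro b
      have b1 : β 1 1 = 0 := by
        have := hmul 1 1 1
        rw [mul_one] at this
        exact left_eq_add.1 this
      rw [← b1, hq]
      have h1 := hS.qs2 1 b
      have h2 : S.q b 1 = S.zero := by
        have := (hS.qs3 b 1 1).1 rfl
        rwa [mul_one] at this
      have h3 : S.q 1 1 = S.zero := by
        have := (hS.qs3 1 1 1).1 rfl
        rwa [mul_one] at this
      rw [h1, h2, h3]
    have h2 : QGroup β 1 = ⊥ := by
      unfold QGroup
      rw [AddSubgroup.closure_eq_bot_iff]
      rintro _ ⟨b, rfl⟩
      exact hz b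
    rw [h2, AddSubgroup.card_bot]
  refine ⟨fun hf hc h => Pool.Agent.Run7.h948.QF.elem_of_E S hS hfin hB β hmul hq hf hc h,
    fun h => ?_⟩
  refine Pool.Agent.Run7.h948.QF.elemT S hS hfin hB β hmul hq fun x y z hI => ?_
  rcases h x y z (hind x y z hI) with ⟨h32, h1⟩ | h
  · by_cases h0 : ∀ p ∈ Subgroup.closure {x, y, z}, Nat.card (QGroup β p) ≠ 2
    · exact Or.inr (Or.inr (Or.inr (Or.inr (Or.inr ⟨h32, h0⟩))))
    · push Not at h0
      obtain ⟨p0, hp0, hc0⟩ := h0
      have hpos : 0 < (IndexTwo β x y z).ncard := by
        rw [Set.ncard_pos (Set.toFinite _)]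
        exact ⟨p0, hp0, hc0⟩
      have h2 : 1 < (IndexTwo β x y z).ncard := by omega
      obtain ⟨p, hp, q, hq', hne⟩ := (Set.one_lt_ncard (Set.toFinite _)).1 h2
      have hn : ∀ r : S.G, Nat.card (QGroup β r) = 2 → r ≠ 1 := by
        rintro r hr rfl
        omega
      exact Or.inr (Or.inr (Or.inr (Or.inl ⟨p, hp.1, q, hq'.1,
        ⟨hn p hp.2, hn q hq'.2, hne⟩, hp.2.le, hq'.2.le⟩)))
  · exact Or.inr (Or.inl h)

end Pool.Agent.Results.MP_d26ff6_al.NoIndexTwo
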