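import Pool.Agent.Run7.h948.QF.StrU

/-! # MP_d26ff6_al: thirty-two quaternions with few universal slots

Let `S = (G, -1, q)` be a finite quaternionic structure whose quaternions lie in a group `B` of
exponent two in which `q` is additive (for instance the structure of any field), and let `Q_a` be
the group of the quaternions `q(a,b)`, `b ∈ G`; its order is the index of the value group
`V(a) = {b : q(a,b) = 0}`.  If `B` has at most 32 elements and less than one eighth of the elements
`a` of `G` have `|Q_a| > 16` (that is, `Q_a = B` and `|B| = 32`: `a` is a slot of all 32 elements of
`B`), then `S` is of elementary type.

Outline.  A structure which is not of elementary type has a factor structure with elements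
`x, y, z` and a character `f` of `G` such that `(p,b) ↦ ε(p) f(b)` (`ε(x) = ε(y) = ε(z) = 1`) is a
symbol on `P = ⟨x,y,z⟩` which is not a function of the quaternions.  Starting with at most 32
quaternions in `B`, this is possible only if the factor structure is `S` and `|B| = 32`, and then
the symbols on `P` and this one form a linked system of 64 linear maps with a map of rank one for
each line of `P`.  By the classification of these systems there are two forms, and the family `A`
of the 32 forms `χ ∘ q` (`χ` a character of `B`) is given by its restrictions to `P`.  Let `K_v` be
the group of the members of `A` which vanish at `v`; if `K_v = 0`, then `Q_v = B`.  There are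
`R, P', Q'` generating `P` with `Q_R = {0, h}`.  In the second form, let `h(v) ≠ 0`; each nonzero
member of `K_v` has one of three types.  Two types at the same `v` are not possible (this is the
argument for an index two element which is not orthogonal to an element `b` with `|Q_b| = 8`).
Linkage at pairs of elements `vu`, `p` with `u, p ∈ {P', Q', P'Q'}` gives the types at `vP'`,
`vQ'`, `vP'Q'` from the type at `v`, and these lead to two types at some point, unless `K = 0` at
one of `v, vP', vQ', vP'Q'`.  In the first form, let `h(x) = 0` and `g(x) ≠ 0`, where `g` is the
second functional: the members of `K_x` are given by three coordinates, and if `K_x` is not zero,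
linkage moves them along `P` until two members of `A` with the same restriction to `P` and
different values at a point are found. -/

set_option autoImplicit false

namespace Pool.Agent.Results.MP_d26ff6_al.NoUniversalSlot

open Pool.Agent.H315R3.ETC

universe v

/-- `Q_a`: the subgroup of `B` generated by all `β(a,b)`, `b ∈ G` (it is the set of these values,
if `β` is additive in the second variable and `B` has exponent two) -/
def QGroup {G : Type} {B : Type v} [AddCommGroup B] (β : G → G → B) (a : G) : AddSubgroup B :=
  AddSubgroup.closure (Set.range (β a))

theorem result (S : QData) (hS : IsQuat S) (hfin : Finite S.G)
    -- the quaternions lie in a group `B` of exponent two in which `q` is additive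
    {B : Type v} [AddCommGroup B] (hB : ∀ b : B, b + b = 0) (β : S.G → S.G → B)
    (hmul : ∀ a b c, β a (b * c) = β a b + β a c)
    (hq : ∀ a b c d, β a b = β c d ↔ S.q a b = S.q c d)
    -- `B` has at most 32 elements, and there are less than `|G|/8` elements `a` such that `Q_a` has
    -- more than 16 elements
    (hf : Finite B) (hc : Nat.card B ≤ 32)
    (h : 8 * {a : S.G | 16 < Nat.card (QGroup β a)}.ncard < Nat.card S.G) :
    Elem S :=
  Pool.Agent.Run7.h948.QF.elem_of_U S hS hfin hB β hmul hq hf hc h

end Pool.Agent.Results.MP_d26ff6_al.NoUniversalSlot
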