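import Pool.Agent.Run7.h948.QF.StrT

/-! # MP_d26ff6_al: one small value group in each affine plane

Let `S = (G, -1, q)` be a finite quaternionic structure whose quaternions lie in a group `B` of
exponent two in which `q` is additive (for instance the structure of any field), let
`V(a) = {b : q(a,b) = 0}`, and let `Q_a` be the group of all `q(a,b)`, so that `|Q_a|` is the index
of `V(a)`.  If for all independent `x, y, z` at least one of the four groups `V(x)`, `V(y)`,
`V(z)`, `V(xyz)` has index at most four, then `S` is of elementary type.  So a structure which is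
not of elementary type has independent `x, y, z` such that `V(x)`, `V(y)`, `V(z)` and `V(xyz)` have
index at least eight.  It is also enough that, for all independent `x, y, z`, this or one of three
other local conditions holds.

Outline.  A structure which is not of elementary type has a factor structure with elements
`x, y, z` and a character `f` of `G` such that `(p,b) ↦ ε(p) f(b)` (`ε(x) = ε(y) = ε(z) = 1`) is a
symbol on `P = ⟨x,y,z⟩` which is not a function of the quaternions.  The symbols on `P` and this one
form a linked system of linear maps on `P`, which contains, for each of the seven lines of the Fano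
plane `P ∖ 1`, a map of rank one which vanishes on the line.  A member of the system is determined
by its values at three points `p` which do not lie on a line, and it has at most `|Q_p|` values at
`p`.  So if three such points have `|Q_p| ≤ 4`, the system has at most 64 members; in the two
possible systems with at most 64 members all points with `|Q_p| ≤ 4` lie on a line.  Hence the four
points outside some line have `|Q_p| ≥ 8`; they have the form `x', y', z', x'y'z'`. -/

set_option autoImplicit false

namespace Pool.Agent.Results.MP_d26ff6_al.OneSmallValueGroup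

open Pool.Agent.H315R3.ETC

universe v

/-- the quaternions with a slot in the subset `W` of `G` -/
def quats (S : QData) (W : Set S.G) : Set S.Q := {t | ∃ g ∈ W, ∃ b : S.G, S.q g b = t}

/-- `Q_a`: the subgroup of `B` generated by all `β(a,b)`, `b ∈ G` (it is the set of these values,
if `β` is additive in the second variable and `B` has exponent two) -/
def QGroup {G : Type} {B : Type v} [AddCommGroup B] (β : G → G → B) (a : G) : AddSubgroup B :=
  AddSubgroup.closure (Set.range (β a))

/-- `p` is one of `x, y, z, xyz` -/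
def IsPoint {G : Type} [CommGroup G] (x y z p : G) : Prop :=
  p = x ∨ p = y ∨ p = z ∨ p = x * y * z

/-- `x, y, z` are independent elements of the group `G` of exponent two -/
def Independent {G : Type} [CommGroup G] (x y z : G) : Prop :=
  x ≠ 1 ∧ y ≠ 1 ∧ z ≠ 1 ∧ x * y ≠ 1 ∧ x * z ≠ 1 ∧ y * z ≠ 1 ∧ x * y * z ≠ 1

theorem result (S : QData) (hS : IsQuat S) (hfin : Finite S.G)
    -- the quaternions lie in a group `B` of exponent two in which `q` is additive
    {B : Type v} [AddCommGroup B] (hB : ∀ b : B, b + b = 0) (β : S.G → S.G → B)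
    (hmul : ∀ a b c, β a (b * c) = β a b + β a c)
    (hq : ∀ a b c d, β a b = β c d ↔ S.q a b = S.q c d) :
    -- for all independent `x, y, z` one of `V(x), V(y), V(z), V(xyz)` has index at most four
    ((∀ x y z : S.G, Independent x y z → ∃ p : S.G, IsPoint x y z p ∧
      Nat.card S.G ≤ 4 * Nat.card {b : S.G // S.q p b = S.zero}) → Elem S) ∧
    -- for all independent `x, y, z`: one of `Q_x, Q_y, Q_z, Q_xyz` has at most four elements,
    ((∀ x y z : S.G, Independent x y z →
      (∃ p : S.G, IsPoint x y z p ∧ Nat.card (QGroup β p) ≤ 4) ∨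
      -- or `Q_p` and `Q_q` have at most two elements, for two elements `p, q ≠ 1` of `⟨x,y,z⟩`,
      (∃ p ∈ Subgroup.closure {x, y, z}, ∃ q ∈ Subgroup.closure {x, y, z},
        p ≠ 1 ∧ q ≠ 1 ∧ p ≠ q ∧ Nat.card (QGroup β p) ≤ 2 ∧ Nat.card (QGroup β q) ≤ 2) ∨
      -- or `Q_p` has index at most two in `Q_x + Q_y + Q_z`, for an element `p` of `⟨x,y,z⟩`,
      (∃ p ∈ Subgroup.closure {x, y, z},
        ∀ u ∈ QGroup β x ⊔ QGroup β y ⊔ QGroup β z, ∀ v ∈ QGroup β x ⊔ QGroup β y ⊔ QGroup β z,
          u ∈ QGroup β p ∨ v ∈ QGroup β p ∨ u + v ∈ QGroup β p) ∨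
      -- or at most 27 quaternions have a slot in `⟨x,y,z⟩`
      (quats S (Subgroup.closure {x, y, z} : Subgroup S.G)).ncard ≤ 27) → Elem S) := by
  have hsq : ∀ a : S.G, a * a = 1 := hS.exp2
  have hind : ∀ x y z : S.G, Pool.Agent.Run7.h948.QF.Indep x y z → Independent x y z := by
    have hne : ∀ a b : S.G, b ≠ a → a * b ≠ 1 := by
      intro a b hab h
      apply hab
      have h1 : a * (a * b) = b := by rw [← mul_assoc, hsq, one_mul]
      rw [h, mul_one] at h1
      exact h1.symm
    rintro x y z ⟨h1, h2, h3, h4, h5, h6, h7⟩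
    exact ⟨h1, h2, h4, hne _ _ h3, hne _ _ h5, hne _ _ h6, hne _ _ h7⟩
  have main : (∀ x y z : S.G, Independent x y z →
      (∃ p : S.G, IsPoint x y z p ∧ Nat.card (QGroup β p) ≤ 4) ∨
      (∃ p ∈ Subgroup.closure {x, y, z}, ∃ q ∈ Subgroup.closure {x, y, z},
        p ≠ 1 ∧ q ≠ 1 ∧ p ≠ q ∧ Nat.card (QGroup β p) ≤ 2 ∧ Nat.card (QGroup β q) ≤ 2) ∨
      (∃ p ∈ Subgroup.closure {x, y, z},
        ∀ u ∈ QGroup β x ⊔ QGroup β y ⊔ QGroup β z, ∀ v ∈ QGroup β x ⊔ QGroup β y ⊔ QGroup β z,
          u ∈ QGroup β p ∨ v ∈ QGroup β p ∨ u + v ∈ QGroup β p) ∨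
      (quats S (Subgroup.closure {x, y, z} : Subgroup S.G)).ncard ≤ 27) → Elem S := by
    intro h
    refine Pool.Agent.Run7.h948.QF.elemT S hS hfin hB β hmul hq fun x y z hI => ?_
    rcases h x y z (hind x y z hI) with h | ⟨p, hp, q, hq', n1, n2, n3, h1, h2⟩ | h | h
    · exact Or.inl h
    · exact Or.inr (Or.inr (Or.inr (Or.inl ⟨p, hp, q, hq', ⟨n1, n2, n3⟩, h1, h2⟩)))
    · exact Or.inr (Or.inr (Or.inl h))
    · exact Or.inr (Or.inl h)
  refine ⟨fun h => main fun x y z hI => Or.inl ?_, main⟩
  obtain ⟨p, hp, h4⟩ := h x y z hI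
  refine ⟨p, hp, ?_⟩
  obtain ⟨f, hf1, -, hf3⟩ := Pool.Agent.TH188.ETV.card_Qs β hmul p
  have h1 := f.ker.card_mul_index
  rw [hf3] at h1
  have q1 : S.q p 1 = S.zero := by
    have := (hS.qs3 p 1 1).1 rfl
    rwa [mul_one] at this
  have b1 : β p 1 = 0 := by
    have := hmul p 1 1
    rw [mul_one] at this
    exact left_eq_add.1 this
  have h2 : Nat.card f.ker = Nat.card {b : S.G // S.q p b = S.zero} := by
    refine Nat.card_congr ?_
    refine Equiv.subtypeEquiv Additive.toMul ?_
    intro b
    rw [AddMonoidHom.mem_ker, ← q1, ← hq, b1]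
    have : f b = β p b.toMul := hf1 b.toMul
    rw [this]
  have h3 : Nat.card (Additive S.G) = Nat.card S.G := rfl
  rw [h2, h3] at h1
  have hpos : 0 < Nat.card {b : S.G // S.q p b = S.zero} := by
    have : Nonempty {b : S.G // S.q p b = S.zero} := ⟨⟨1, q1⟩⟩
    exact Nat.card_pos
  have h5 : Nat.card {b : S.G // S.q p b = S.zero} * Nat.card (QGroup β p) ≤
      Nat.card {b : S.G // S.q p b = S.zero} * 4 := by
    have h6 : Nat.card {b : S.G // S.q p b = S.zero} * Nat.card (QGroup β p) = Nat.card S.G := h1
    rw [h6]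
    omega
  exact Nat.le_of_mul_le_mul_left h5 hpos

end Pool.Agent.Results.MP_d26ff6_al.OneSmallValueGroup
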