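import Pool.Agent.Run7.h948.QF.Str

/-! # MP_d26ff6_al: quaternionic structures with at most thirty-one quaternions

A finite quaternionic structure whose quaternions lie in a group of exponent two in which `q` is
additive (for instance the structure of any field), and which has at most 31 quaternions, is of
elementary type.  It is enough that, for all `x, y, z`, at most 27 quaternions have a slot in
`⟨x,y,z⟩`, or that for every `w` at most 31 quaternions have a slot in `⟨x,y,z,w⟩` (or that
`⟨x,y,z⟩` is small in one of two other ways).

Outline.  A structure which is not of elementary type has a factor structure with elements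
`x, y, z` and a character `f` of `G` such that `(p,b) ↦ ε(p) f(b)` (`ε(x) = ε(y) = ε(z) = 1`) is a
symbol on `⟨x,y,z⟩` which is not a function of the quaternions.  The quaternions
`(q(p,b), ε(p) f(b))` form seven subgroups `X_p`, indexed by the points of the Fano plane.  If their
sum has more than 64 elements, then their union has at least 32 elements.  Otherwise the dual of the
sum is a linked system `W` of at most 64 linear maps on `⟨x,y,z⟩` containing, for each of the seven
lines, a map of rank one which vanishes on the line and is odd.  Seven elements of `W` are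
dependent, and the possible relations show that `W` has one of two forms.  In both forms the sum of
the values on `⟨x,y,z⟩` has 32 elements, so it has an element `m` which is not a value.  The second
form then contradicts the existence of members of the family which vanish at `p` and not at `m`
(`p` in `⟨x,y,z⟩`); the first form contradicts it for `p` in `⟨x,y,z,y₀⟩`, where `y₀` is an element
at which the special functional of the form does not vanish, since otherwise there are at least
28 + 8 values. -/

set_option autoImplicit false

namespace Pool.Agent.Results.MP_d26ff6_al.ThirtyOneQuaternions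

open Pool.Agent.H315R3.ETC

universe v

/-- the quaternions with a slot in the subset `W` of `G` -/
def quats (S : QData) (W : Set S.G) : Set S.Q := {t | ∃ g ∈ W, ∃ b : S.G, S.q g b = t}

/-- `Q_a`: the subgroup of `B` generated by all `β(a,b)`, `b ∈ G` (it is the set of these values,
if `β` is additive in the second variable and `B` has exponent two) -/
def QGroup {G : Type} {B : Type v} [AddCommGroup B] (β : G → G → B) (a : G) : AddSubgroup B :=
  AddSubgroup.closure (Set.range (β a))

/-- `p` is one of `x, y, z, xyz` -/
def IsPoint {G : Type} [CommGroup G] (x y z p : G) : Prop :=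
  p = x ∨ p = y ∨ p = z ∨ p = x * y * z

theorem result (S : QData) (hS : IsQuat S) (hfin : Finite S.G)
    -- the quaternions lie in a group `B` of exponent two in which `q` is additive
    {B : Type v} [AddCommGroup B] (hB : ∀ b : B, b + b = 0) (β : S.G → S.G → B)
    (hmul : ∀ a b c, β a (b * c) = β a b + β a c)
    (hq : ∀ a b c d, β a b = β c d ↔ S.q a b = S.q c d) :
    -- at most 31 quaternions
    ((quats S Set.univ).ncard ≤ 31 → Elem S) ∧
    -- for all `x, y, z`: at most 27 quaternions with a slot in `⟨x,y,z⟩`,
    ((∀ x y z : S.G, (quats S (Subgroup.closure {x, y, z} : Subgroup S.G)).ncard ≤ 27 ∨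
      -- or for every `w` at most 31 quaternions with a slot in `⟨x,y,z,w⟩`,
      (∀ w : S.G, (quats S (Subgroup.closure {x, y, z, w} : Subgroup S.G)).ncard ≤ 31) ∨
      -- or the four groups `Q_p`, `p = x, y, z, xyz`, have at most four elements,
      (∀ p : S.G, IsPoint x y z p → Nat.card (QGroup β p) ≤ 4) ∨
      -- or one of them has index at most two in `Q_x + Q_y + Q_z`
      ∃ p : S.G, IsPoint x y z p ∧
        ∀ u ∈ QGroup β x ⊔ QGroup β y ⊔ QGroup β z, ∀ v ∈ QGroup β x ⊔ QGroup β y ⊔ QGroup β z,
          u ∈ QGroup β p ∨ v ∈ QGroup β p ∨ u + v ∈ QGroup β p) → Elem S) := by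
  have main : (∀ x y z : S.G, (quats S (Subgroup.closure {x, y, z} : Subgroup S.G)).ncard ≤ 27 ∨
      (∀ w : S.G, (quats S (Subgroup.closure {x, y, z, w} : Subgroup S.G)).ncard ≤ 31) ∨
      (∀ p : S.G, IsPoint x y z p → Nat.card (QGroup β p) ≤ 4) ∨
      ∃ p : S.G, IsPoint x y z p ∧
        ∀ u ∈ QGroup β x ⊔ QGroup β y ⊔ QGroup β z, ∀ v ∈ QGroup β x ⊔ QGroup β y ⊔ QGroup β z,
          u ∈ QGroup β p ∨ v ∈ QGroup β p ∨ u + v ∈ QGroup β p) → Elem S := by
    intro h
    refine Pool.Agent.Run7.h948.QF.elem31 S hS hfin hB β hmul hq fun x y z => ?_
    rcases h x y z with h | h | h | h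
    · exact Or.inr (Or.inl h)
    · exact Or.inr (Or.inr h)
    · exact Or.inl (Or.inl h)
    · exact Or.inl (Or.inr h)
  refine ⟨fun h => main fun x y z => Or.inr (Or.inl fun w => le_trans ?_ h), main⟩
  have hfQ : (quats S Set.univ).Finite := by
    refine (Set.finite_range (fun p : S.G × S.G => S.q p.1 p.2)).subset ?_
    rintro t ⟨g, -, b, rfl⟩
    exact ⟨(g, b), rfl⟩
  refine Set.ncard_le_ncard ?_ hfQ
  rintro t ⟨g, -, b, rfl⟩
  exact ⟨g, trivial, b, rfl⟩

end Pool.Agent.Results.MP_d26ff6_al.ThirtyOneQuaternions
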